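import Pool.Agent.T2h8.AL.Bad

/-!
# Locally residually finite varieties of associative algebras over a finite field

Let `F` be a finite field and let `W` be a set of polynomial identities. The variety of associative
`F`-algebras defined by `W` is locally residually finite if and only if some `f ∈ W` does not become
zero when all its inner letters commute (that is, the sum of the coefficients of the words with a
given first letter, a given last letter and given inner letters, in any order, is nonzero for some
choice of these data); equivalently, the variety does not contain all algebras with the identity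
`x y z w = x z y w`; equivalently, it does not contain the algebra generated by the matrices `e₁₂`,
`t e₂₂`, `e₂₃` over `F[t]`; equivalently, its finitely generated algebras have the ascending chain
condition on two-sided ideals.
-/

set_option autoImplicit false

namespace Pool.Agent.Results.MP_5aea19_al.Criterion

/-- The value at `a` of the polynomial `f` in the noncommuting variables `x₀, x₁, ...`, without
constant term. The polynomial is given by its coefficients: `f w` is the coefficient of the
(nonempty) word `w`. -/
def value {F B : Type} [Field F] [NonUnitalRing B] [Module F B] (a : ℕ → B)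
    (f : FreeSemigroup ℕ →₀ F) : B :=
  f.sum fun w c => c • FreeSemigroup.lift a w

/-- The algebra `B` belongs to the variety defined by the identities `f = 0`, `f ∈ W`. -/
def InVariety {F : Type} [Field F] (W : Set (FreeSemigroup ℕ →₀ F)) (B : Type) [NonUnitalRing B]
    [Module F B] : Prop :=
  ∀ f ∈ W, ∀ a : ℕ → B, value a f = 0

/-- The algebra `B` is generated, as a nonunital algebra, by a finite set. -/
def FinitelyGenerated (F B : Type) [Field F] [NonUnitalRing B] [Module F B] [IsScalarTower F B B]
    [SMulCommClass F B B] : Prop :=
  ∃ S : Set B, S.Finite ∧ NonUnitalAlgebra.adjoin F S = ⊤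

/-- For every `b ≠ 0` in `B` there is a homomorphism onto a finite-dimensional algebra which does
not kill `b`. -/
def ResiduallyFinite (F B : Type) [Field F] [NonUnitalRing B] [Module F B] [IsScalarTower F B B]
    [SMulCommClass F B B] : Prop :=
  ∀ b : B, b ≠ 0 → ∃ (E : Type) (_ : NonUnitalRing E) (_ : Module F E) (_ : IsScalarTower F E E)
    (_ : SMulCommClass F E E) (_ : Module.Finite F E) (φ : B →ₙₐ[F] E),
    Function.Surjective φ ∧ φ b ≠ 0

/-- The finitely generated algebras of the variety defined by `W` are residually finite. -/
def LocallyResiduallyFinite {F : Type} [Field F] (W : Set (FreeSemigroup ℕ →₀ F)) : Prop :=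
  ∀ (B : Type) [NonUnitalRing B] [Module F B] [IsScalarTower F B B] [SMulCommClass F B B],
    InVariety W B → FinitelyGenerated F B → ResiduallyFinite F B

/-- The ascending chain condition on two-sided ideals. -/
def IdealACC (F B : Type) [Field F] [NonUnitalRing B] [Module F B] : Prop :=
  ∀ I : ℕ → Submodule F B, (∀ n, I n ≤ I (n + 1)) →
    (∀ n, ∀ x ∈ I n, ∀ y, x * y ∈ I n ∧ y * x ∈ I n) → ∃ n, ∀ m, n ≤ m → I m = I n

/-- The finitely generated algebras of the variety defined by `W` have the ascending chain
condition on two-sided ideals. -/
def LocallyACC {F : Type} [Field F] (W : Set (FreeSemigroup ℕ →₀ F)) : Prop :=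
  ∀ (B : Type) [NonUnitalRing B] [Module F B] [IsScalarTower F B B] [SMulCommClass F B B],
    InVariety W B → FinitelyGenerated F B → IdealACC F B

/-- The data of a word which remain when its inner letters commute: the first letter, the last
letter (if the word has at least two letters) and the multiset of the letters in between. -/
def shape (w : FreeSemigroup ℕ) : ℕ × Option ℕ × Multiset ℕ :=
  (w.head, w.tail.getLast?, (w.tail.dropLast : Multiset ℕ))

/-- Some identity in `W` does not become zero when the inner letters commute: for some `f ∈ W` and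
some first letter, last letter and multiset of inner letters, the sum of the coefficients in `f` of
all the words with these data is nonzero. -/
def SurvivesInnerCommutation {F : Type} [Field F] (W : Set (FreeSemigroup ℕ →₀ F)) : Prop :=
  ∃ f ∈ W, ∃ k : ℕ × Option ℕ × Multiset ℕ, ∑ w ∈ f.support with shape w = k, f w ≠ 0

/-- The algebra generated by the matrices `e₁₂`, `t e₂₂`, `e₂₃` over `F[t]`. -/
noncomputable def AlgebraA (F : Type) [Field F] :
    NonUnitalSubalgebra F (Matrix (Fin 3) (Fin 3) (Polynomial F)) :=
  NonUnitalAlgebra.adjoin F {!![0, 1, 0; 0, 0, 0; 0, 0, 0],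
    !![0, 0, 0; 0, Polynomial.X, 0; 0, 0, 0], !![0, 0, 0; 0, 0, 1; 0, 0, 0]}

open Pool.Agent.T2h8.AL in
/-- **Theorem.** Let `F` be a finite field and `W` a set of identities. The following conditions
are equivalent: the variety defined by `W` is locally residually finite; its finitely generated
algebras have the ascending chain condition on ideals; some identity in `W` does not become zero
when the inner letters commute; the variety does not contain the algebra generated by `e₁₂`,
`t e₂₂`, `e₂₃`; the variety does not contain all algebras which satisfy `x y z w = x z y w`. -/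
theorem result (F : Type) [Field F] [Finite F] (W : Set (FreeSemigroup ℕ →₀ F)) :
    [LocallyResiduallyFinite W,
     LocallyACC W,
     SurvivesInnerCommutation W,
     ¬ InVariety W (AlgebraA F),
     ¬ ∀ (B : Type) [NonUnitalRing B] [Module F B] [IsScalarTower F B B] [SMulCommClass F B B],
        (∀ x y z w : B, x * y * z * w = x * z * y * w) → InVariety W B].TFAE := by
  classical
  have key : SurvivesInnerCommutation W → ∃ f ∈ W, ∃ p : ℕ → FreeAlgebra F (Fin 3), (∀ n, p n ∈ PP F) ∧
      (eps F (peval p f) 0 2 ≠ 0 ∨ eps F (peval p f * FreeAlgebra.ι F 2) 0 2 ≠ 0) := by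
    rintro ⟨f, hf, k, hk⟩
    exact ⟨f, hf, exists_subst f k hk⟩
  have key2 : SurvivesInnerCommutation W → ∃ g : FreeAlgebra F (Fin 3), eps F g 0 2 ≠ 0 ∧
      ∀ (B : Type) [NonUnitalRing B] [Module F B] [IsScalarTower F B B] [SMulCommClass F B B],
        InVariety W B → ∀ (C : Type) [Ring C] [Algebra F C] (ι : B →ₙₐ[F] C), ∀ x ∈ rng ι,
          ∀ y ∈ rng ι, ∀ z ∈ rng ι, evx F x y z g = 0 := by
    intro h
    obtain ⟨f, hf, p, hp, hp'⟩ := key h
    have hev : ∀ (B : Type) [NonUnitalRing B] [Module F B] [IsScalarTower F B B]
        [SMulCommClass F B B], InVariety W B → ∀ (C : Type) [Ring C] [Algebra F C]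
        (ι : B →ₙₐ[F] C), ∀ x ∈ rng ι, ∀ y ∈ rng ι, ∀ z ∈ rng ι,
          evx F x y z (peval p f) = 0 := by
      intro B _ _ _ _ hB C _ _ ι x hx y hy z hz
      have hP : ∀ q ∈ PP F, evx F x y z q ∈ rng ι := by
        intro q hq
        induction hq using NonUnitalAlgebra.adjoin_induction with
        | mem q hq =>
          obtain ⟨i, rfl⟩ := hq
          fin_cases i
          · simpa [evx] using hx
          · simpa [evx] using hy
          · simpa [evx] using hz
        | add q q' _ _ h h' => rw [map_add]; exact add_mem h h'
        | zero => rw [map_zero]; exact zero_mem _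
        | mul q q' _ _ h h' =>
          obtain ⟨b, hb⟩ := h
          obtain ⟨b', hb'⟩ := h'
          refine ⟨b * b', ?_⟩
          rw [map_mul (evx F x y z), ← hb, ← hb']
          exact map_mul ι b b'
        | smul r q _ h => rw [map_smul]; exact (rng ι).smul_mem r h
      have hb : ∀ n, ∃ b, ι b = evx F x y z (p n) := fun n => hP _ (hp n)
      choose b hb using hb
      rw [map_peval']
      have h1 : (fun n => evx F x y z (p n)) = fun n => ι (b n) := funext fun n => (hb n).symm
      rw [h1, ← map_peval]
      have h2 : peval b f = 0 := hB f hf b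
      rw [h2, map_zero]
    rcases hp' with h | h
    · exact ⟨_, h, hev⟩
    · refine ⟨_, h, ?_⟩
      intro B _ _ _ _ hB C _ _ ι x hx y hy z hz
      rw [map_mul, hev B hB C ι x hx y hy z hz, zero_mul]
  have hneg : ¬ SurvivesInnerCommutation W → ∀ (B : Type) [NonUnitalRing B] [Module F B] [IsScalarTower F B B]
      [SMulCommClass F B B], (∀ x y z w : B, x * y * z * w = x * z * y * w) → InVariety W B := by
    intro h B _ _ _ _ hB f hf a
    apply peval_zero hB f
    intro k
    by_contra hk
    exact h ⟨f, hf, k, hk⟩
  tfae_have 3 → 1 := by
    intro h B _ _ _ _ hB hfg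
    obtain ⟨g, hg, hlaw⟩ := key2 h
    exact rf_of_law hfg g hg (hlaw B hB)
  tfae_have 3 → 2 := by
    intro h B _ _ _ _ hB hfg
    obtain ⟨g, hg, hlaw⟩ := key2 h
    exact acc_of_law hfg g hg (hlaw B hB)
  tfae_have 1 → 3 := by
    intro h
    by_contra hc
    exact Bf.not_rf (h (Bf F) (hneg hc (Bf F) Bf.comm) Bf.fg)
  tfae_have 2 → 3 := by
    intro h
    by_contra hc
    exact Al.not_acc (h (Al F) (hneg hc (Al F) Al.comm) Al.fg)
  tfae_have 3 → 4 := by
    intro h hA
    obtain ⟨f, hf, p, hp, hp'⟩ := key h
    have hP : ∀ q ∈ PP F, eps F q ∈ Al F := by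
      intro q hq
      induction hq using NonUnitalAlgebra.adjoin_induction with
      | mem q hq =>
        obtain ⟨i, rfl⟩ := hq
        fin_cases i
        · exact NonUnitalAlgebra.subset_adjoin F (Or.inl (by simp [eps]))
        · exact NonUnitalAlgebra.subset_adjoin F (Or.inr (Or.inl (by simp [eps])))
        · exact NonUnitalAlgebra.subset_adjoin F (Or.inr (Or.inr (by simp [eps])))
      | add q q' _ _ h h' => rw [map_add]; exact add_mem h h'
      | zero => rw [map_zero]; exact zero_mem _
      | mul q q' _ _ h h' => rw [map_mul]; exact mul_mem h h'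
      | smul r q _ h => rw [map_smul]; exact SMulMemClass.smul_mem r h
    have h1 : peval (fun n => (⟨eps F (p n), hP _ (hp n)⟩ : Al F)) f = 0 :=
      hA f hf (fun n => (⟨eps F (p n), hP _ (hp n)⟩ : Al F))
    have h2 : eps F (peval p f) = 0 := by
      rw [map_peval']
      have h3 := congrArg (NonUnitalSubalgebraClass.subtype (Al F)) h1
      rw [map_peval, map_zero] at h3
      exact h3
    rcases hp' with h | h
    · rw [h2] at h
      exact h rfl
    · rw [map_mul, h2, zero_mul] at h
      exact h rfl
  tfae_have 4 → 5 := by
    intro h h5
    exact h (h5 (AlgebraA F) (Al.comm (F := F)))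
  tfae_have 5 → 3 := by
    intro h
    by_contra hc
    exact h (hneg hc)
  tfae_finish

end Pool.Agent.Results.MP_5aea19_al.Criterion
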